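import Mathlib

/-!
Local obstructions for `x ^ p - y ^ q = 6`: a table of pairs of exponents `(p, q)` with a prime `l`
such that no difference of a `p`-th and a `q`-th power is `6` modulo `l`.
-/

namespace Pool.Agent.Lib_helper66.SIX

/-- Walk through the powers `c`, `c * h`, `c * h ^ 2`, ... modulo `l`: none of them plus `6` is `0`
or has `a`-th power `1`, none but the last is `1`. -/
def go (l h a : ℕ) : ℕ → ℕ → Bool
  | 0, c => c == 1
  | n + 1, c => !((c + 6) % l == 0) && !(((c + 6) % l) ^ a % l == 1) &&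
      (n == 0 || !(c * h % l == 1)) && go l h a n (c * h % l)

theorem go_spec {l h a : ℕ} : ∀ {n c : ℕ}, c < l → go l h a n c = true →
    (∀ i < n, (c * h ^ i % l + 6) % l ≠ 0 ∧ ((c * h ^ i % l + 6) % l) ^ a % l ≠ 1) ∧
    (∀ i, 0 < i → i < n → c * h ^ i % l ≠ 1) ∧ c * h ^ n % l = 1 := by
  intro n
  induction n with
  | zero =>
    intro c hc hg
    simp only [go, beq_iff_eq] at hg
    subst hg
    refine ⟨fun i hi => by omega, fun i _ hi => by omega, ?_⟩
    simpa using Nat.mod_eq_of_lt hc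
  | succ n ih =>
    intro c hc hg
    simp only [go, Bool.and_eq_true, Bool.or_eq_true, Bool.not_eq_true', beq_eq_false_iff_ne,
      beq_iff_eq, ne_eq] at hg
    obtain ⟨⟨⟨h1, h2⟩, h3⟩, h4⟩ := hg
    have hl : 0 < l := by omega
    obtain ⟨i1, i2, i3⟩ := ih (Nat.mod_lt _ hl) h4
    have key : ∀ i, c * h % l * h ^ i % l = c * h ^ (i + 1) % l := by
      intro i
      rw [Nat.mod_mul_mod, pow_succ']
      ring_nf
    refine ⟨?_, ?_, ?_⟩
    · intro i hi
      rcases Nat.eq_zero_or_pos i with h0 | h0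
      · subst h0
        rw [pow_zero, mul_one, Nat.mod_eq_of_lt hc]
        exact ⟨h1, h2⟩
      · obtain ⟨j, rfl⟩ := Nat.exists_eq_succ_of_ne_zero h0.ne'
        have := i1 j (by omega)
        rw [key] at this
        exact this
    · intro i hi0 hi
      obtain ⟨j, rfl⟩ := Nat.exists_eq_succ_of_ne_zero hi0.ne'
      rcases Nat.eq_zero_or_pos j with h0 | h0
      · subst h0
        simp only [Nat.succ_eq_add_one, zero_add, pow_one]
        rcases h3 with h3 | h3
        · omega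
        · exact h3
      · have := i2 j h0 (by omega)
        rw [key] at this
        exact this
    · rw [key] at i3
      exact i3

theorem obstruct {l p q k a h : ℕ} (hl : l.Prime) (h6 : 6 < l) (hk : q * k = l - 1)
    (ha : p * a = l - 1) (hg : go l h a k 1 = true) (hs : 6 ^ a % l ≠ 1) (X Y : ℤ) :
    X ^ p - Y ^ q ≠ 6 := by
  intro hXY
  have : Fact l.Prime := ⟨hl⟩
  have : NeZero l := ⟨hl.ne_zero⟩
  have hk0 : k ≠ 0 := by rintro rfl; simp at hk; omega
  have hq0 : q ≠ 0 := by rintro rfl; simp at hk; omega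
  have hp0 : p ≠ 0 := by rintro rfl; simp at ha; omega
  have : NeZero k := ⟨hk0⟩
  have hE : (X : ZMod l) ^ p - (Y : ZMod l) ^ q = 6 := by
    have := congrArg (fun z : ℤ => (z : ZMod l)) hXY
    push_cast at this
    exact this
  obtain ⟨g1, g2, g3⟩ := go_spec (by omega : 1 < l) hg
  simp only [one_mul] at g1 g2 g3
  have one_iff : ∀ m : ℕ, ((m : ℕ) : ZMod l) = 1 → m % l = 1 := by
    intro m hm
    have h2 : ((m : ℕ) : ZMod l) = ((1 : ℕ) : ZMod l) := by rw [hm, Nat.cast_one]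
    have h3 := (ZMod.natCast_eq_natCast_iff' _ _ _).mp h2
    rwa [Nat.mod_eq_of_lt (by omega : 1 < l)] at h3
  have hroot : IsPrimitiveRoot ((h : ℕ) : ZMod l) k := by
    refine IsPrimitiveRoot.mk_of_lt _ (Nat.pos_of_ne_zero hk0) ?_ ?_
    · have : ((h ^ k % l : ℕ) : ZMod l) = ((1 : ℕ) : ZMod l) := by rw [g3]
      rw [ZMod.natCast_mod, Nat.cast_pow, Nat.cast_one] at this
      exact this
    · intro i hi0 hi hc
      exact g2 i hi0 hi (one_iff _ (by rw [Nat.cast_pow]; exact hc))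
  by_cases hY : (Y : ZMod l) = 0
  · rw [hY, zero_pow hq0, sub_zero] at hE
    have hX : (X : ZMod l) ≠ 0 := by
      intro h0
      rw [h0, zero_pow hp0] at hE
      have h7 : ((6 : ℕ) : ZMod l) = 0 := by
        rw [Nat.cast_ofNat]; exact hE.symm
      have := Nat.le_of_dvd (by norm_num) ((ZMod.natCast_eq_zero_iff 6 l).mp h7)
      omega
    refine hs (one_iff _ ?_)
    rw [Nat.cast_pow, Nat.cast_ofNat, ← hE, ← pow_mul, ha]
    exact ZMod.pow_card_sub_one_eq_one hX
  · have hw : ((Y : ZMod l) ^ q) ^ k = 1 := by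
      rw [← pow_mul, hk]; exact ZMod.pow_card_sub_one_eq_one hY
    obtain ⟨i, hi, hiw⟩ := hroot.eq_pow_of_pow_eq_one hw
    obtain ⟨t1, t2⟩ := g1 i hi
    have hv : (((h ^ i % l + 6) % l : ℕ) : ZMod l) = (X : ZMod l) ^ p := by
      rw [ZMod.natCast_mod, Nat.cast_add, ZMod.natCast_mod, Nat.cast_pow, Nat.cast_ofNat, hiw,
        ← hE]
      ring
    by_cases hX : (X : ZMod l) = 0
    · rw [hX, zero_pow hp0] at hv
      have h8 := (ZMod.natCast_eq_zero_iff _ _).mp hv
      exact t1 (Nat.eq_zero_of_dvd_of_lt h8 (Nat.mod_lt _ hl.pos))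
    · refine t2 (one_iff _ ?_)
      rw [Nat.cast_pow, hv, ← pow_mul, ha]
      exact ZMod.pow_card_sub_one_eq_one hX

/-- The table: exponents `p`, `q`, the prime `l`, a generator `h` of the group of `q`-th powers. -/
def table : List (ℕ × ℕ × ℕ × ℕ) :=
  [(3, 17, 103, 57), (3, 103, 619, 367), (3, 233, 2797, 1783), (3, 443, 2659, 904), (3, 607, 3643, 423),
   (3, 761, 4567, 3455), (3, 835, 5011, 2908), (3, 941, 5647, 854), (3, 1001, 6007, 5930), (3, 1103, 6619, 6050),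
   (3, 1265, 7591, 5138), (3, 1321, 7927, 4168), (3, 1651, 9907, 3336), (3, 1733, 10399, 9955), (3, 1777, 10663, 9857),
   (3, 1973, 11839, 680), (3, 2137, 12823, 11432), (3, 2161, 25933, 20085), (5, 33, 331, 8), (5, 57, 571, 404),
   (5, 63, 631, 403), (5, 129, 1291, 228), (5, 151, 1511, 743), (5, 201, 2011, 1213), (5, 609, 6091, 3638),
   (5, 937, 9371, 3255), (5, 943, 9431, 7795), (5, 987, 9871, 4354), (5, 1107, 11071, 7177), (5, 1131, 11311, 10217),
   (5, 1261, 12611, 4087), (5, 1333, 13331, 913), (7, 25, 1051, 858), (7, 27, 379, 184), (7, 45, 631, 30),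
   (7, 47, 659, 515), (7, 69, 967, 175), (7, 153, 2143, 1064), (7, 195, 2731, 63), (7, 215, 3011, 758),
   (7, 237, 3319, 1340), (7, 663, 9283, 6970), (7, 741, 20749, 7393), (7, 767, 10739, 7423), (7, 927, 12979, 3126),
   (7, 929, 13007, 28), (9, 29, 523, 429), (9, 139, 2503, 223), (9, 205, 3691, 1031), (9, 217, 3907, 831),
   (9, 275, 4951, 4156), (9, 625, 11251, 1407), (9, 701, 12619, 11415), (9, 709, 12763, 11821), (9, 737, 13267, 2873),
   (11, 123, 2707, 2472), (11, 137, 6029, 1713), (11, 201, 4423, 4192), (11, 229, 5039, 909), (11, 235, 5171, 1135),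
   (11, 243, 5347, 2681), (11, 325, 7151, 3165), (11, 351, 7723, 5206), (11, 445, 9791, 1046), (11, 513, 11287, 693),
   (11, 591, 13003, 10159), (11, 609, 13399, 9311), (11, 619, 13619, 3626), (13, 57, 1483, 952), (13, 75, 1951, 888),
   (13, 77, 2003, 990), (13, 125, 3251, 533), (13, 281, 7307, 5426), (13, 537, 13963, 12105), (15, 61, 1831, 1604),
   (15, 79, 2371, 2099), (15, 91, 2731, 774), (15, 193, 5791, 2961), (15, 223, 6691, 4746), (15, 251, 15061, 7930),
   (15, 253, 7591, 3307), (15, 317, 9511, 4887), (15, 329, 9871, 9833), (15, 377, 11311, 10202), (17, 205, 6971, 963),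
   (17, 259, 8807, 4338), (19, 29, 1103, 490), (19, 71, 2699, 797), (19, 77, 2927, 2002), (19, 81, 3079, 1209),
   (19, 197, 7487, 2342), (19, 201, 7639, 4394), (19, 227, 8627, 4195), (19, 313, 23789, 6423), (21, 65, 2731, 1535),
   (21, 79, 3319, 863), (21, 271, 11383, 10408), (23, 43, 1979, 817), (23, 55, 2531, 1737), (23, 127, 5843, 1833),
   (23, 171, 7867, 6598), (23, 205, 9431, 4474), (23, 261, 12007, 7120), (23, 263, 24197, 15471), (25, 101, 5051, 3991),
   (25, 159, 7951, 7530), (25, 263, 13151, 2348), (27, 65, 3511, 1546), (27, 239, 12907, 7166), (29, 167, 19373, 3057),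
   (29, 175, 10151, 8265), (31, 51, 3163, 423), (31, 59, 3659, 3252), (31, 131, 8123, 5563), (31, 189, 11719, 1295),
   (33, 193, 12739, 1437), (35, 43, 3011, 1686), (35, 177, 12391, 11617), (35, 181, 12671, 11799), (37, 177, 13099, 3753),
   (39, 59, 4603, 98), (39, 179, 13963, 9088), (43, 65, 5591, 3679), (45, 121, 10891, 4134), (47, 87, 8179, 463),
   (49, 107, 10487, 7907), (51, 59, 12037, 346), (51, 79, 8059, 318), (53, 63, 6679, 4547), (53, 67, 7103, 1953),
   (53, 131, 27773, 11464), (61, 63, 7687, 7603), (61, 71, 8663, 6814), (61, 101, 12323, 7598), (65, 87, 11311, 1618),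
   (71, 81, 11503, 3018), (75, 83, 12451, 3960)]

theorem table_prime : ∀ t ∈ table, t.2.2.1.Prime := by
  unfold table
  simp only [List.forall_mem_cons]
  norm_num

/-- All the checks for an entry of the table. -/
def chk (t : ℕ × ℕ × ℕ × ℕ) : Bool :=
  Nat.ble 7 t.2.2.1 && (t.2.1 * ((t.2.2.1 - 1) / t.2.1) == t.2.2.1 - 1) &&
    (t.1 * ((t.2.2.1 - 1) / t.1) == t.2.2.1 - 1) &&
    go t.2.2.1 t.2.2.2 ((t.2.2.1 - 1) / t.1) ((t.2.2.1 - 1) / t.2.1) 1 &&
    !(6 ^ ((t.2.2.1 - 1) / t.1) % t.2.2.1 == 1) && (t.1 % 2 == 1) && (t.2.1 % 2 == 1)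

theorem table_chk : table.all chk = true := by
  decide +kernel

theorem table_main {t : ℕ × ℕ × ℕ × ℕ} (ht : t ∈ table) {P Q : ℕ}
    (hPQ : (t.1 ∣ P ∧ t.2.1 ∣ Q) ∨ (t.2.1 ∣ P ∧ t.1 ∣ Q)) (x y : ℤ) : x ^ P - y ^ Q ≠ 6 := by
  have h1 := List.all_eq_true.mp table_chk _ ht
  simp only [chk, Bool.and_eq_true, beq_iff_eq, Bool.not_eq_true', beq_eq_false_iff_ne,
    ne_eq] at h1
  obtain ⟨⟨⟨⟨⟨⟨c1, c2⟩, c3⟩, c4⟩, c5⟩, c6⟩, c7⟩ := h1
  have hob := obstruct (table_prime _ ht) (Nat.le_of_ble_eq_true c1) c2 c3 c4 c5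
  rcases hPQ with ⟨⟨a, rfl⟩, ⟨b, rfl⟩⟩ | ⟨⟨a, rfl⟩, ⟨b, rfl⟩⟩
  · rw [mul_comm t.1 a, mul_comm t.2.1 b, pow_mul, pow_mul]
    exact hob _ _
  · rw [mul_comm t.2.1 a, mul_comm t.1 b, pow_mul, pow_mul]
    intro hE
    refine hob (-(y ^ b)) (-(x ^ a)) ?_
    rw [Odd.neg_pow (Nat.odd_iff.mpr c6), Odd.neg_pow (Nat.odd_iff.mpr c7)]
    linarith

end Pool.Agent.Lib_helper66.SIX
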